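import Pool.Agent.Helper76.TX.StNv

/-!
# Project TX, module PTH: short Farey paths in terms of `F1`, `F3`
-/

set_option autoImplicit false

namespace Pool.Agent.Helper97.TX

open Pool.Agent.Helper76.TX Pool.Agent.Helper14.CV

/-- the value of the path from `c/d` to `a/b` is a sum of at most `n1` values of `F1` and `n3` of `F3` -/
private def Rp (r n1 n3 : ℕ) (a b c d : ℤ) : Prop :=
  ∃ L1 L3 : List (ℤ × ZMod (2 ^ r) × ZMod (2 ^ r)),
    L1.length ≤ n1 ∧ L3.length ≤ n3 ∧ (∀ t ∈ L1, t.2.2 ≠ 0) ∧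
    ∀ (R : Type) (_ : AddCommGroup R) (G : ℤ → ℤ → R), Sym (r + 1) (r + 1) G →
      G a b - G c d =
        (L1.map fun t => t.1 • edgeF 1 1 0 0 1 G t.2.1 t.2.2).sum +
        (L3.map fun t => t.1 • edgeF 1 1 1 0 1 G t.2.1 t.2.2).sum

private theorem sneg {α R : Type} [AddCommGroup R] (L : List (ℤ × α)) (E : α → R) :
    ((L.map fun t => (-t.1, t.2)).map fun t => t.1 • E t.2).sum = -(L.map fun t => t.1 • E t.2).sum := by
  induction L with
  | nil => simp
  | cons t L ih =>
    simp only [List.map_cons, List.sum_cons, neg_smul] at ih ⊢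
    rw [ih, neg_add]

private theorem Rp.neg {r n1 n3 : ℕ} {a b c d : ℤ} (h : Rp r n1 n3 a b c d) : Rp r n1 n3 c d a b := by
  obtain ⟨L1, L3, h1, h3, h0, hv⟩ := h
  refine ⟨L1.map fun t => (-t.1, t.2), L3.map fun t => (-t.1, t.2), by simpa using h1, by simpa using h3, ?_, ?_⟩
  · intro t ht
    rw [List.mem_map] at ht
    obtain ⟨t', ht', rfl⟩ := ht
    exact h0 t' ht'
  · intro R _ G hG
    rw [sneg L1 (fun s => edgeF 1 1 0 0 1 G s.1 s.2), sneg L3 (fun s => edgeF 1 1 1 0 1 G s.1 s.2), ← neg_add,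
      ← hv R _ G hG, neg_sub]

private theorem Rp.add {r n1 n3 m1 m3 : ℕ} {a b c d e f : ℤ} (h : Rp r n1 n3 a b c d)
    (h' : Rp r m1 m3 c d e f) : Rp r (n1 + m1) (n3 + m3) a b e f := by
  obtain ⟨L1, L3, h1, h3, h0, hv⟩ := h
  obtain ⟨M1, M3, g1, g3, g0, gv⟩ := h'
  refine ⟨L1 ++ M1, L3 ++ M3, ?_, ?_, ?_, ?_⟩
  · rw [List.length_append]
    omega
  · rw [List.length_append]
    omega
  · intro t ht
    rcases List.mem_append.1 ht with h | h
    · exact h0 t h
    · exact g0 t h
  · intro R _ G hG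
    have e1 := hv R _ G hG
    have e2 := gv R _ G hG
    rw [List.map_append, List.map_append, List.sum_append, List.sum_append, ← sub_add_sub_cancel _ (G c d), e1, e2]
    abel

private theorem Rp.mono {r n1 n3 m1 m3 : ℕ} {a b c d : ℤ} (h : Rp r n1 n3 a b c d) (h1 : n1 ≤ m1) (h3 : n3 ≤ m3) :
    Rp r m1 m3 a b c d := by
  obtain ⟨L1, L3, g1, g3, h0, hv⟩ := h
  exact ⟨L1, L3, g1.trans h1, g3.trans h3, h0, hv⟩

private theorem Rp.refl (r : ℕ) (a b : ℤ) : Rp r 0 0 a b a b :=
  ⟨[], [], le_rfl, le_rfl, by simp, fun R _ G _ => by simp⟩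

/-- a change of the sign of a vector -/
private theorem Rp.congr {r n1 n3 : ℕ} {a b c d a' b' : ℤ} (h : Rp r n1 n3 a b c d) (h0 : a ≠ 0 ∨ b ≠ 0)
    (ha : a' = -a) (hb : b' = -b) : Rp r n1 n3 a' b' c d := by
  obtain ⟨L1, L3, h1, h3, h0', hv⟩ := h
  refine ⟨L1, L3, h1, h3, h0', fun R _ G hG => ?_⟩
  rw [← hv R _ G hG]
  have e := hG.1 (-1) a b (by norm_num) h0
  rw [ha, hb, ← e]
  congr 2 <;> ring

section
variable {r : ℕ}

private theorem un {a : ℤ} (ha : Odd a) : IsUnit (a : ZMod (2 ^ r)) := by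
  rw [ZMod.coe_int_isUnit_iff_isCoprime]
  push_cast
  refine IsCoprime.pow_left ?_
  obtain ⟨k, hk⟩ := ha
  exact ⟨-k, 1, by rw [hk]; ring⟩

/-- the coordinates of a matrix with odd diagonal -/
private theorem pl {a b c d : ℤ} (ha : Odd a) (hd : Odd d) (h : a * d - 4 * b * c = 1) :
    Pl 1 a b c d ((b : ZMod (2 ^ r)) * (a : ZMod (2 ^ r))⁻¹) ((c : ZMod (2 ^ r)) * (d : ZMod (2 ^ r))⁻¹) := by
  refine ⟨by rw [← h]; norm_num, ?_, ?_⟩
  · rw [mul_assoc, ZMod.inv_mul_of_unit _ (un ha), mul_one]
  · rw [mul_assoc, ZMod.inv_mul_of_unit _ (un hd), mul_one]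

private theorem ynz {c d : ℤ} (hd : Odd d) (h0 : c ≠ 0) (h1 : |c| < 2 ^ r) :
    (c : ZMod (2 ^ r)) * (d : ZMod (2 ^ r))⁻¹ ≠ 0 := by
  intro h
  have h2 : (c : ZMod (2 ^ r)) = 0 := by
    have h3 : (c : ZMod (2 ^ r)) * (d : ZMod (2 ^ r))⁻¹ * (d : ZMod (2 ^ r)) = 0 := by rw [h, zero_mul]
    rwa [mul_assoc, ZMod.inv_mul_of_unit _ (un hd), mul_one] at h3
  rw [ZMod.intCast_zmod_eq_zero_iff_dvd] at h2
  push_cast at h2
  exact h0 (Int.eq_zero_of_abs_lt_dvd h2 h1)

variable (hE : StEdg)
include hE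

private theorem v1 {R : Type} [AddCommGroup R] {G : ℤ → ℤ → R} (hG : Sym (r + 1) (r + 1) G) {a b c d : ℤ}
    {x y : ZMod (2 ^ r)} (h : Pl 1 a b c d x y) :
    edgeF 1 1 0 0 1 G x y = G a (2 * c) - G (2 * b) d := by
  have e := hE R _ 1 r r G hG 1 0 0 1 (by simp) (by simp) x y a b c d h
  rw [e]
  congr 2 <;> ring

private theorem v3 {R : Type} [AddCommGroup R] {G : ℤ → ℤ → R} (hG : Sym (r + 1) (r + 1) G) {a b c d : ℤ}
    {x y : ZMod (2 ^ r)} (h : Pl 1 a b c d x y) :
    edgeF 1 1 1 0 1 G x y = G (a + 2 * b) (2 * c + d) - G (2 * b) d := by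
  have e := hE R _ 1 r r G hG 1 1 0 1 (by simp) (by simp) x y a b c d h
  rw [e]
  congr 2 <;> ring

/-- an edge of the type `F1` -/
private theorem ed1 {a b c d : ℤ} (ha : Odd a) (hd : Odd d) (h : a * d - 4 * b * c = 1) (h0 : c ≠ 0)
    (h1 : |c| < 2 ^ r) : Rp r 1 0 a (2 * c) (2 * b) d := by
  refine ⟨[(1, (b : ZMod (2 ^ r)) * (a : ZMod (2 ^ r))⁻¹, (c : ZMod (2 ^ r)) * (d : ZMod (2 ^ r))⁻¹)], [],
    by simp, by simp, ?_, fun R _ G hG => ?_⟩
  · intro t ht
    rw [List.mem_singleton] at ht
    rw [ht]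
    exact ynz hd h0 h1
  · simp only [List.map_cons, List.map_nil, List.sum_cons, List.sum_nil, add_zero, one_smul]
    rw [v1 hE hG (pl ha hd h)]

/-- an edge of the type `F3` -/
private theorem ed3 {a b c d : ℤ} (ha : Odd a) (hd : Odd d) (h : a * d - 4 * b * c = 1) :
    Rp r 0 1 (a + 2 * b) (2 * c + d) (2 * b) d := by
  refine ⟨[], [(1, (b : ZMod (2 ^ r)) * (a : ZMod (2 ^ r))⁻¹, (c : ZMod (2 ^ r)) * (d : ZMod (2 ^ r))⁻¹)],
    by simp, by simp, by simp, fun R _ G hG => ?_⟩
  simp only [List.map_cons, List.map_nil, List.sum_cons, List.sum_nil, add_zero, zero_add, one_smul]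
  rw [v3 hE hG (pl ha hd h)]

/-- the edge of a matrix with odd diagonal -/
private theorem edA {a b c d : ℤ} (ha : Odd a) (hd : Odd d) (h : a * d - b * c = 1) (h0 : c ≠ 0)
    (h1 : |c| < 2 ^ (r + 1)) : Rp r 1 1 a c b d := by
  rcases Int.even_or_odd b with hb | hb
  · rcases Int.even_or_odd c with hc | hc
    · -- class of the identity
      obtain ⟨b', rfl⟩ := hb
      obtain ⟨c', rfl⟩ := hc
      have e := ed1 (r := r) hE (b := b') (c := c') ha hd (by rw [← h]; ring) (by intro e; apply h0; rw [e, add_zero])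
        (by rw [← two_mul, abs_mul, pow_succ] at h1; norm_num at h1; linarith)
      rw [← two_mul, ← two_mul]
      exact e.mono le_rfl zero_le_one
    · -- `b` even, `c` odd
      obtain ⟨b', rfl⟩ := hb
      have hcd : Even (c - d) := hc.sub_odd hd
      obtain ⟨c', hc'⟩ := hcd
      have e := ed3 (r := r) hE (a := a - 2 * b') (b := b') (c := c') (d := d) (ha.sub_even (even_two_mul b')) hd
        (by
          have : 4 * c' = 2 * (c - d) := by rw [hc']; ring
          linear_combination h - b' * this)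
      have e1 : a - 2 * b' + 2 * b' = a := by ring
      have e2 : 2 * c' + d = c := by linear_combination -hc'
      rw [e1, e2] at e
      rw [← two_mul]
      exact e.mono zero_le_one le_rfl
  · rcases Int.even_or_odd c with hc | hc
    · -- `b` odd, `c` even
      obtain ⟨c', rfl⟩ := hc
      obtain ⟨b', hb'⟩ := hb.sub_odd ha
      have hd' : Odd (d - 2 * c') := hd.sub_even (even_two_mul c')
      have hdet : a * (d - 2 * c') - 4 * b' * c' = 1 := by
        have : 2 * b' = b - a := by rw [hb']; ring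
        linear_combination h - 2 * c' * this
      have e := ed1 (r := r) hE (b := b') (c := c') ha hd' hdet (by intro e; apply h0; rw [e, add_zero])
        (by rw [← two_mul, abs_mul, pow_succ] at h1; norm_num at h1; linarith)
      have e3 := ed3 (r := r) hE (a := a) (b := b') (c := c') (d := d - 2 * c') ha hd' hdet
      have e1 : a + 2 * b' = b := by linear_combination -hb'
      have e2 : 2 * c' + (d - 2 * c') = d := by ring
      rw [e1, e2] at e3
      rw [← two_mul]
      exact e.add e3.neg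
    · exfalso
      have h2 : Even (a * d - b * c) := (ha.mul hd).sub_odd (hb.mul hc)
      rw [h] at h2
      exact absurd h2 (by decide)

/-- the edge of a matrix of determinant one -/
private theorem ed {a b c d : ℤ} (h : a * d - b * c = 1) (h0 : c ≠ 0) (h1 : |c| < 2 ^ (r + 1))
    (g0 : d ≠ 0) (g1 : |d| < 2 ^ (r + 1)) : Rp r 1 1 a c b d := by
  by_cases hp : Odd (a * d)
  · rw [Int.odd_mul] at hp
    exact edA hE hp.1 hp.2 h h0 h1
  · have hbc : Odd (b * c) := by
      have h2 : b * c = a * d - 1 := by linear_combination -h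
      rw [h2]
      exact (Int.not_odd_iff_even.1 hp).sub_odd odd_one
    rw [Int.odd_mul] at hbc
    have e := edA (r := r) hE (a := b) (b := -a) (c := d) (d := -c) hbc.1 hbc.2.neg (by linear_combination h) g0 g1
    refine e.neg.congr (Or.inr (neg_ne_zero.2 h0)) (neg_neg a).symm (neg_neg c).symm

/-- the paths -/
private theorem pth (X : ℤ) : ∀ n : ℕ, ∀ u w : ℤ, w.toNat = n → 0 < w → w < 2 ^ (r + 1) → |u| ≤ w →
    IsCoprime u w → Rp r (Nat.log 2 w.toNat + 1) (Nat.log 2 w.toNat + 1) (u + 2 * X * w) w (2 * X) 1 := by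
  intro n
  induction n using Nat.strong_induction_on with
  | _ n ih =>
    intro u w hn hw hw2 hu hc
    rcases eq_or_lt_of_le (show 1 ≤ w by omega) with h1 | h1
    · subst h1
      have hu' := abs_le.1 hu
      have h3 : u = 0 ∨ u = 1 ∨ u = -1 := by omega
      rcases h3 with rfl | rfl | rfl
      · rw [zero_add, mul_one]
        exact (Rp.refl r _ _).mono (Nat.zero_le _) (Nat.zero_le _)
      · have e := ed3 (r := r) hE (a := 1) (b := X) (c := 0) (d := 1) odd_one odd_one (by ring)
        rw [mul_zero, zero_add] at e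
        rw [mul_one]
        exact e.mono (Nat.zero_le _) (Nat.le_add_left _ _)
      · have e := ed3 (r := r) hE (a := 1 - 4 * X) (b := X) (c := -1) (d := 1)
          (odd_one.sub_even ⟨2 * X, by ring⟩) odd_one (by ring)
        refine (e.congr (Or.inr (by norm_num)) (by ring) (by ring)).mono (Nat.zero_le _) (Nat.le_add_left _ _)
    · -- `w ≥ 2`
      obtain ⟨s, t, hst⟩ := hc
      have hu1 : |u| ≤ w - 1 := by
        rcases lt_or_eq_of_le hu with h | h
        · omega
        · exfalso
          have h2 : w ∣ 1 := by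
            have : w ∣ u := by
              rw [← h]
              exact (abs_dvd_self u)
            rw [← hst]
            exact dvd_add (this.mul_left s) (dvd_mul_left w t)
          have := Int.le_of_dvd one_pos h2
          omega
      -- the inverse
      have hm0 : 0 ≤ s % w := Int.emod_nonneg _ (by omega)
      have hm1 : s % w < w := Int.emod_lt_of_pos _ hw
      have hdv : w ∣ u * (s % w) - 1 := by
        have e : u * (s % w) - 1 = w * (-t - u * (s / w)) := by
          have := Int.emod_add_mul_ediv s w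
          linear_combination u * this + hst
        exact ⟨_, e⟩
      obtain ⟨m, hm⟩ := hdv
      have hm2 : s % w ≠ 0 := by
        intro h0
        rw [h0, mul_zero, zero_sub] at hm
        have : w ∣ 1 := ⟨-m, by linear_combination -hm⟩
        have := Int.le_of_dvd one_pos this
        omega
      have key : ∃ w1 u1 e : ℤ, 0 < w1 ∧ 2 * w1 ≤ w ∧ (e = 1 ∨ e = -1) ∧ u * w1 - w * u1 = e := by
        rcases le_or_gt (2 * (s % w)) w with h | h
        · exact ⟨s % w, m, 1, by omega, h, Or.inl rfl, by linear_combination hm⟩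
        · exact ⟨w - s % w, u - m, -1, by omega, by omega, Or.inr rfl, by linear_combination -hm⟩
      obtain ⟨w1, u1, e, hw1, hw1', he, hue⟩ := key
      have hee : e * e = 1 := by
        rcases he with rfl | rfl <;> norm_num
      have hea : |e| = 1 := by
        rcases he with rfl | rfl <;> norm_num
      have hu1' : |u1| ≤ w1 := by
        have h2 : w * |u1| ≤ w * w1 := by
          have h3 : w * |u1| = |u * w1 - e| := by
            have h4 : |w * u1| = w * |u1| := by rw [abs_mul, abs_of_pos hw]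
            rw [← h4]
            congr 1
            linear_combination -hue
          rw [h3]
          calc |u * w1 - e| ≤ |u * w1| + |e| := abs_sub _ _
            _ = |u| * w1 + 1 := by rw [abs_mul, abs_of_pos hw1, hea]
            _ ≤ (w - 1) * w1 + 1 := by
              have := mul_le_mul_of_nonneg_right hu1 hw1.le
              omega
            _ ≤ w * w1 := by nlinarith
        exact le_of_mul_le_mul_left h2 hw
      have hc1 : IsCoprime u1 w1 := ⟨-(w * e), u * e, by linear_combination e * hue + hee⟩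
      have ih' := ih w1.toNat (by omega) u1 w1 rfl hw1 (by omega) hu1' hc1
      have hlog : Nat.log 2 w1.toNat + 1 ≤ Nat.log 2 w.toNat := by
        rw [← Nat.log_mul_base (by norm_num) (by omega : w1.toNat ≠ 0)]
        exact Nat.log_mono_right (by omega)
      have hedge : Rp r 1 1 (u + 2 * X * w) w (u1 + 2 * X * w1) w1 := by
        rcases he with rfl | rfl
        · exact ed hE (by linear_combination hue) (by omega) (by rw [abs_of_pos hw]; exact hw2) (by omega)
            (by rw [abs_of_pos hw1]; omega)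
        · exact (ed hE (by linear_combination -hue) (by omega) (by rw [abs_of_pos hw1]; omega) (by omega)
            (by rw [abs_of_pos hw]; exact hw2)).neg
      exact (hedge.add ih').mono (by omega) (by omega)

end

/-- PTH: short Farey paths in terms of `F1`, `F3` -/
theorem hPth : StPth := by
  intro hE r X u w hw hw2 hu hc
  obtain ⟨L1, L3, h1, h3, h0, hv⟩ := pth hE X w.toNat u w rfl hw hw2 hu hc
  exact ⟨L1, L3, h1, h3, h0, hv⟩

end Pool.Agent.Helper97.TX
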